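import Pool.Agent.Q5.OM.Zf
import Pool.Agent.Q5.BP.Pack

/-!
# Oscillation of the error term, in the form used for the translations
-/

set_option autoImplicit false

open MeasureTheory Filter Topology Set Complex
open Pool.Agent.TH270.MS (Mc DvR BM cov_ii dvR_sh Cn)
open Pool.Agent.Q5.BP (MSq FB mu mu_eq cov_iiC)

namespace Pool.Agent.Q5.OM

/-- the logarithmic share of the `y ≤ Y` with `W y > c` -/
noncomputable def Share (W : ℝ → ℝ) (c Y : ℝ) : ℝ :=
  (∫ y in Real.exp 1..Y, (if c < W y then (1 : ℝ) else 0) / y) / Real.log Y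

theorem qmp_exp : Measure.QuasiMeasurePreserving Real.exp (volume.restrict (Ioi (1 : ℝ)))
    (volume.restrict (Ioi (Real.exp 1))) := by
  refine ⟨Real.measurable_exp, Measure.AbsolutelyContinuous.mk fun s hs h => ?_⟩
  rw [Measure.restrict_apply hs] at h
  rw [Measure.map_apply Real.measurable_exp hs, Measure.restrict_apply (Real.measurable_exp hs)]
  have h1 : DifferentiableOn ℝ Real.log (s ∩ Ioi (Real.exp 1)) := fun x hx => by
    have hx0 : 0 < x := (Real.exp_pos 1).trans hx.2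
    exact (Real.differentiableAt_log hx0.ne').differentiableWithinAt
  have h2 := addHaar_image_eq_zero_of_differentiableOn_of_addHaar_eq_zero volume h1 h
  refine measure_mono_null ?_ h2
  rintro u ⟨hu1, hu2⟩
  have hu3 : (1 : ℝ) < u := hu2
  exact ⟨Real.exp u, ⟨hu1, Real.exp_lt_exp.2 hu3⟩, Real.log_exp u⟩

theorem bm_congr {f g : ℝ → ℝ} (hf : BM f) (h : ∀ x : ℝ, Real.exp 1 ≤ x → f x = g x) : BM g := by
  refine ⟨hf.1.congr ?_, fun Y => ?_⟩
  · filter_upwards [ae_restrict_mem measurableSet_Ioi] with x hx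
    exact h x (le_of_lt hx)
  · obtain ⟨M, hM⟩ := hf.2 Y
    exact ⟨M, fun y h1 h2 => by rw [← h y h1]; exact hM y h1 h2⟩

variable {W : ℝ → ℝ}

theorem aesm (h : BM W) : AEStronglyMeasurable (fun u => W (Real.exp u))
    (volume.restrict (Ioi (1 : ℝ))) :=
  h.1.comp_quasiMeasurePreserving qmp_exp

theorem loc_of (h : BM W) : Loc fun u => W (Real.exp u) := by
  intro T hT
  obtain ⟨M, hM⟩ := h.2 (Real.exp T)
  refine MemLp.of_bound ((aesm h).mono_measure (Measure.restrict_mono Ioc_subset_Ioi_self le_rfl)) M ?_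
  filter_upwards [ae_restrict_mem measurableSet_Ioc] with u hu
  exact hM _ (Real.exp_le_exp.2 hu.1.le) (Real.exp_le_exp.2 hu.2)

theorem mn_cov (φ : ℝ → ℝ) {T : ℝ} (hT : 1 ≤ T) :
    (∫ y in Real.exp 1..Real.exp T, φ y / y) / Real.log (Real.exp T) =
      mn (fun u => φ (Real.exp u)) T := by
  unfold mn
  rw [Real.log_exp, ← cov_ii (fun u => φ (Real.exp u)) hT]
  congr 1
  refine intervalIntegral.integral_congr fun y hy => ?_
  rw [uIcc_of_le (Real.exp_le_exp.2 hT)] at hy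
  rw [Real.exp_log ((Real.exp_pos 1).trans_le hy.1)]

theorem mn_sq {δ : ℝ → ℝ} {V : ℝ} (h : Tendsto (MSq δ) atTop (𝓝 V)) :
    Tendsto (mn fun u => (Real.log (Real.exp u) * δ (Real.exp u)) ^ 2) atTop (𝓝 V) := by
  have h1 := h.comp Real.tendsto_exp_atTop
  refine h1.congr' ?_
  filter_upwards [eventually_ge_atTop 1] with T hT
  exact mn_cov (fun y => (Real.log y * δ y) ^ 2) hT

theorem fb_cov {δ : ℝ → ℝ} {t : ℝ} {v : ℂ} (h : Tendsto (FB δ t) atTop (𝓝 v)) :
    Tendsto (fun T : ℝ => (∫ u in (1 : ℝ)..T,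
      ((Real.log (Real.exp u) * δ (Real.exp u) : ℝ) : ℂ) * exp (-(t * I * u))) / (T : ℂ)) atTop
        (𝓝 v) := by
  have h1 := h.comp Real.tendsto_exp_atTop
  refine h1.congr' ?_
  filter_upwards [eventually_ge_atTop 1] with T hT
  rw [Function.comp_apply]
  unfold FB
  rw [Real.log_exp, ← cov_iiC (fun u => ((Real.log (Real.exp u) * δ (Real.exp u) : ℝ) : ℂ) *
    exp (-(t * I * u))) hT]
  congr 1
  refine intervalIntegral.integral_congr fun y hy => ?_
  rw [uIcc_of_le (Real.exp_le_exp.2 hT)] at hy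
  have h0 : 0 < y := (Real.exp_pos 1).trans_le hy.1
  have h0c : (y : ℂ) ≠ 0 := by exact_mod_cast h0.ne'
  have h1 : (y : ℂ) ^ (-(t * I)) = exp (-(t * I * Real.log y)) := by
    rw [cpow_def_of_ne_zero h0c, ← Complex.ofReal_log h0.le]
    congr 1
    ring
  rw [Real.exp_log h0, h1]

theorem mean_zero {δ : ℝ → ℝ} {m : ℝ → ℕ}
    (h : ∀ t : ℝ, Tendsto (FB δ t) atTop (𝓝 (-((m t : ℂ) * I / t)))) :
    Tendsto (mn fun u => Real.log (Real.exp u) * δ (Real.exp u)) atTop (𝓝 0) := by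
  have h1 := fb_cov (h 0)
  simp only [Complex.ofReal_zero, zero_mul, neg_zero, Complex.exp_zero, mul_one, div_zero] at h1
  have h2 := (Complex.continuous_re.tendsto 0).comp h1
  rw [Complex.zero_re] at h2
  refine h2.congr fun T => ?_
  rw [Function.comp_apply]
  unfold mn
  have e := intervalIntegral.integral_ofReal (a := (1 : ℝ)) (b := T) (μ := volume)
    (f := fun u => Real.log (Real.exp u) * δ (Real.exp u))
  have e' : (∫ u in (1 : ℝ)..T, ((Real.log (Real.exp u) * δ (Real.exp u) : ℝ) : ℂ)) =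
      ((∫ u in (1 : ℝ)..T, Real.log (Real.exp u) * δ (Real.exp u) : ℝ) : ℂ) := e
  rw [e', ← Complex.ofReal_div, Complex.ofReal_re]

theorem norm_coef (m : ℕ) (t : ℝ) : ‖-((m : ℂ) * I / t)‖ = m / |t| := by
  rw [norm_neg, norm_div, norm_mul, norm_I, mul_one, Complex.norm_natCast, Complex.norm_real,
    Real.norm_eq_abs]

/-- the density theorem with almost everywhere measurability -/
theorem share_ge' {f : ℝ → ℝ} {t V : ℝ} {z : ℂ}
    (hf : AEStronglyMeasurable f (volume.restrict (Ioi (1 : ℝ)))) (h : Loc f)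
    (h0 : Tendsto (mn f) atTop (𝓝 0))
    (ht : Tendsto (fun T : ℝ => (∫ u in (1 : ℝ)..T, (f u : ℂ) * exp (-(t * I * u))) / (T : ℂ))
      atTop (𝓝 z)) (hV : Tendsto (mn fun u => f u ^ 2) atTop (𝓝 V)) (hV0 : 0 < V) {c : ℝ}
    (hc0 : 0 ≤ c) (hc : 2 * c < ‖z‖) {ε : ℝ} (hε : 0 < ε) :
    ∀ᶠ T : ℝ in atTop, (‖z‖ - 2 * c) ^ 2 / (4 * V) - ε ≤ sh f c T := by
  set g : ℝ → ℝ := hf.mk f with hg
  have hgm : Measurable g := hf.stronglyMeasurable_mk.measurable
  have hfg : ∀ᵐ u ∂(volume.restrict (Ioi (1 : ℝ))), f u = g u := hf.ae_eq_mk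
  have hint : ∀ {E : Type} [NormedAddCommGroup E] [NormedSpace ℝ E] (φ : ℝ → ℝ → E) {T : ℝ},
      1 ≤ T → ∫ u in (1 : ℝ)..T, φ u (f u) = ∫ u in (1 : ℝ)..T, φ u (g u) := by
    intro E _ _ φ T hT
    rw [intervalIntegral.integral_of_le hT, intervalIntegral.integral_of_le hT]
    refine integral_congr_ae ?_
    have h1 := ae_restrict_of_ae_restrict_of_subset (show Ioc (1 : ℝ) T ⊆ Ioi 1 from fun x hx => hx.1) hfg
    filter_upwards [h1] with u hu
    rw [hu]
  have hgl : Loc g := fun T hT => (h T hT).ae_eq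
    (ae_restrict_of_ae_restrict_of_subset (show Ioc (1 : ℝ) T ⊆ Ioi 1 from fun x hx => hx.1) hfg)
  have k := share_ge (f := g) (t := t) (V := V) (z := z) hgm hgl (h0.congr' (by
      filter_upwards [eventually_ge_atTop 1] with T hT
      unfold mn
      rw [hint (fun _ x => x) hT])) (ht.congr' (by
      filter_upwards [eventually_ge_atTop 1] with T hT
      rw [hint (fun u x => (x : ℂ) * exp (-(t * I * u))) hT])) (hV.congr' (by
      filter_upwards [eventually_ge_atTop 1] with T hT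
      unfold mn
      rw [hint (fun _ x => x ^ 2) hT])) hV0 hc0 hc hε
  filter_upwards [k, eventually_ge_atTop 1] with T h1 hT
  refine h1.trans (le_of_eq ?_)
  unfold sh mn
  rw [hint (fun _ x => if c < x then (1 : ℝ) else 0) hT]

variable {X : Type} {d : ℕ} {N : X → ℕ} {α : X → Fin d → ℂ} {Ψ G₀ : ℂ → ℂ} {k κ : ℕ} {η C : ℝ}

theorem psi_zero (H : Mc N α Ψ G₀ k κ η C) {s : ℂ} (hs : 0 < s.re) : Ψ s ≠ 0 ↔ G₀ s ≠ 0 := by
  have hη := H.hη
  have hs0 : s ≠ 0 := fun h => by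
    rw [h, Complex.zero_re] at hs
    exact lt_irrefl _ hs
  rw [H.hΨ s (by linarith) hs0]
  constructor
  · intro h
    exact mul_ne_zero (pow_ne_zero _ hs0) h
  · intro h h1
    exact h (by rw [h1, mul_zero])

/-- **Oscillation of the error term.** -/
theorem om_pack (H : Mc N α Ψ G₀ k κ η C) (ρ A : ℝ) {P : Prop}
    {m : ℝ → ℕ} {δ : ℝ → ℝ} (hW : BM fun y => Real.log y * δ y)
    (hcl : Tendsto (fun y : ℝ => Real.log y * -DvR N α ρ A y - Real.log y * δ y) atTop (𝓝 0))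
    (h1 : P → ∃ V : ℝ, HasSum (fun t : ℝ => ((m t : ℝ) / t) ^ 2) V ∧ Tendsto (MSq δ) atTop (𝓝 V))
    (h2 : P → ∀ t : ℝ, Tendsto (FB δ t) atTop (𝓝 (-((m t : ℂ) * I / t)))) :
    (∀ B : ℝ, (∀ᶠ y : ℝ in atTop, Real.log y * δ y ≤ B) →
      (∀ s : ℂ, 0 < s.re → Ψ s ≠ 0) ∧ (P → ∀ t : ℝ, t ≠ 0 → (m t : ℝ) / |t| ≤ B)) ∧
    (∀ B : ℝ, (∀ x : ℝ, 0 < x → Ψ x ≠ 0) → (∀ᶠ y : ℝ in atTop, -B ≤ Real.log y * δ y) →
      (∀ s : ℂ, 0 < s.re → Ψ s ≠ 0) ∧ (P → ∀ t : ℝ, t ≠ 0 → (m t : ℝ) / |t| ≤ B)) ∧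
    (P → ∀ V : ℝ, HasSum (fun t : ℝ => ((m t : ℝ) / t) ^ 2) V → ∀ t c : ℝ, t ≠ 0 → 0 ≤ c →
      2 * c < (m t : ℝ) / |t| → ∀ ε : ℝ, 0 < ε → ∀ᶠ Y : ℝ in atTop,
        ((m t : ℝ) / |t| - 2 * c) ^ 2 / (4 * V) - ε ≤ Share (fun y => Real.log y * δ y) c Y ∧
        ((m t : ℝ) / |t| - 2 * c) ^ 2 / (4 * V) - ε ≤ Share (fun y => -(Real.log y * δ y)) c Y) := by
  obtain ⟨e, g, p, he, Q⟩ := H.cn
  set q : ℝ := ρ * Real.eulerMascheroniConstant - Real.log A with hq
  -- the comparison with the sum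
  have hsum : ∀ y : ℝ, 0 < y → Real.log y * -DvR N α ρ A y = Real.log y *
      (Pool.Agent.TH270.MS.Sh (Pool.Agent.TH942.ES.lamS N e) (Pool.Agent.TH270.RS.cS' N α e)
        (Real.log y) - ρ * Real.log (Real.log y) - q) := by
    intro y hy
    rw [dvR_sh H.E he ρ A hy, neg_neg]
  have hloc := loc_of hW
  have hmeas := aesm hW
  have hz : ∀ t : ℝ, ‖-((m t : ℂ) * I / t)‖ = (m t : ℝ) / |t| := fun t => norm_coef (m t) t
  have hlocn : Loc fun u => -(Real.log (Real.exp u) * δ (Real.exp u)) := hloc.neg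
  have hmean : P → Tendsto (mn fun u => Real.log (Real.exp u) * δ (Real.exp u)) atTop (𝓝 0) :=
    fun h => mean_zero (h2 h)
  have hmeann : P → Tendsto (mn fun u => -(Real.log (Real.exp u) * δ (Real.exp u))) atTop (𝓝 0) := by
    intro h
    have h3 := (hmean h).neg
    rw [neg_zero] at h3
    refine h3.congr fun T => ?_
    unfold mn
    rw [intervalIntegral.integral_neg, neg_div]
  have hfb : P → ∀ t : ℝ, Tendsto (fun T : ℝ => (∫ u in (1 : ℝ)..T,
      ((Real.log (Real.exp u) * δ (Real.exp u) : ℝ) : ℂ) * exp (-(t * I * u))) / (T : ℂ)) atTop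
        (𝓝 (-((m t : ℂ) * I / t))) := fun h t => fb_cov (h2 h t)
  have hfbn : P → ∀ t : ℝ, Tendsto (fun T : ℝ => (∫ u in (1 : ℝ)..T,
      ((-(Real.log (Real.exp u) * δ (Real.exp u)) : ℝ) : ℂ) * exp (-(t * I * u))) / (T : ℂ)) atTop
        (𝓝 (- -((m t : ℂ) * I / t))) := by
    intro h t
    refine (hfb h t).neg.congr fun T => ?_
    rw [← neg_div, ← intervalIntegral.integral_neg]
    congr 1
    refine intervalIntegral.integral_congr fun u _ => ?_
    push_cast
    ring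
  refine ⟨fun B hB => ⟨?_, fun hP t ht => ?_⟩, fun B hreal hB => ⟨?_, fun hP t ht => ?_⟩,
    fun hP V hV t c ht hc0 hc ε hε => ?_⟩
  · -- no zeros
    have h3 : ∀ᶠ y : ℝ in atTop, Real.log y * -DvR N α ρ A y ≤ B + 1 := by
      filter_upwards [hB, hcl.eventually (gt_mem_nhds one_pos)] with y h3 h4
      linarith
    have h4 : ∀ᶠ u : ℝ in atTop, u * (Pool.Agent.TH270.MS.Sh (Pool.Agent.TH942.ES.lamS N e)
        (Pool.Agent.TH270.RS.cS' N α e) u - ρ * Real.log u - q) ≤ B + 1 := by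
      filter_upwards [Real.tendsto_exp_atTop.eventually h3] with u h5
      rwa [hsum _ (Real.exp_pos u), Real.log_exp] at h5
    have h5 := upper_zf Q (sh_of_upper h4)
    exact fun s hs => (psi_zero H hs).2 (h5 s hs)
  · have h3 := coeff_le hloc (hmean hP) (hfb hP t) ht (Real.tendsto_exp_atTop.eventually hB)
    rwa [hz] at h3
  · have h3 : ∀ᶠ y : ℝ in atTop, -(B + 1) ≤ Real.log y * -DvR N α ρ A y := by
      filter_upwards [hB, hcl.eventually (lt_mem_nhds (show (-1 : ℝ) < 0 by norm_num))] with y h3 h4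
      linarith
    have h4 : ∀ᶠ u : ℝ in atTop, -(B + 1) ≤ u * (Pool.Agent.TH270.MS.Sh
        (Pool.Agent.TH942.ES.lamS N e) (Pool.Agent.TH270.RS.cS' N α e) u - ρ * Real.log u - q) := by
      filter_upwards [Real.tendsto_exp_atTop.eventually h3] with u h5
      rwa [hsum _ (Real.exp_pos u), Real.log_exp] at h5
    have h5 := lower_zf Q (fun x hx => (psi_zero H (by rwa [Complex.ofReal_re])).1 (hreal x hx))
      (sh_of_lower h4)
    exact fun s hs => (psi_zero H hs).2 (h5 s hs)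
  · have h4 : ∀ᶠ y : ℝ in atTop, -(Real.log y * δ y) ≤ B := by
      filter_upwards [hB] with y hy
      linarith
    have h3 := coeff_le hlocn (hmeann hP) (hfbn hP t) ht (Real.tendsto_exp_atTop.eventually h4)
    rwa [norm_neg, hz] at h3
  · obtain ⟨V', hV', hT⟩ := h1 hP
    have hVV : V' = V := hV'.unique hV
    rw [hVV] at hT
    have ha : 0 < (m t : ℝ) / |t| := by linarith
    have hV0 : 0 < V := by
      have h3 : ((m t : ℝ) / t) ^ 2 ≤ V := le_hasSum hV t fun s _ => sq_nonneg _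
      have h4 : 0 < ((m t : ℝ) / t) ^ 2 := by
        rw [← sq_abs, abs_div, Nat.abs_cast]
        positivity
      linarith
    have hsq := mn_sq hT
    have hsqn : Tendsto (mn fun u => (-(Real.log (Real.exp u) * δ (Real.exp u))) ^ 2) atTop
        (𝓝 V) := by
      simp only [neg_sq]
      exact hsq
    have k1 := share_ge' hmeas hloc (hmean hP) (hfb hP t) hsq hV0 hc0 (by rwa [hz]) hε
    have k2 := share_ge' hmeas.neg hlocn (hmeann hP) (hfbn hP t) hsqn hV0 hc0
      (by rwa [norm_neg, hz]) hε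
    rw [hz] at k1
    rw [norm_neg, hz] at k2
    filter_upwards [Real.tendsto_log_atTop.eventually k1, Real.tendsto_log_atTop.eventually k2,
      eventually_ge_atTop (Real.exp 1)] with Y h3 h4 hY
    have hY0 : 0 < Y := (Real.exp_pos 1).trans_le hY
    have hl : 1 ≤ Real.log Y := Pool.Agent.TH270.MS.one_le_log hY
    have e1 := mn_cov (fun y => if c < Real.log y * δ y then (1 : ℝ) else 0) hl
    have e2 := mn_cov (fun y => if c < -(Real.log y * δ y) then (1 : ℝ) else 0) hl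
    rw [Real.exp_log hY0] at e1 e2
    refine ⟨?_, ?_⟩
    · unfold Share
      rw [e1]
      exact h3
    · unfold Share
      rw [e2]
      exact h4

end Pool.Agent.Q5.OM
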