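import Mathlib

/-!
# Functions with mean zero, a nonzero Fourier coefficient and a bounded mean square
-/

set_option autoImplicit false

open MeasureTheory Filter Topology Set Complex

namespace Pool.Agent.Q5.OM

/-- local square integrability on `(1, T]` -/
def Loc (f : ℝ → ℝ) : Prop := ∀ T : ℝ, 1 ≤ T → MemLp f 2 (volume.restrict (Ioc 1 T))

variable {f : ℝ → ℝ} {a t V B : ℝ} {z : ℂ}

theorem Loc.int (h : Loc f) {T : ℝ} (hT : 1 ≤ T) : IntervalIntegrable f volume 1 T := by
  rw [intervalIntegrable_iff_integrableOn_Ioc_of_le hT]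
  exact (h T hT).integrable (by norm_num)

theorem Loc.sq (h : Loc f) {T : ℝ} (hT : 1 ≤ T) : IntervalIntegrable (fun u => f u ^ 2) volume 1 T := by
  rw [intervalIntegrable_iff_integrableOn_Ioc_of_le hT]
  exact (memLp_two_iff_integrable_sq (h T hT).aestronglyMeasurable).1 (h T hT)

theorem Loc.neg (h : Loc f) : Loc (fun u => -f u) := fun T hT => (h T hT).neg

theorem Loc.exp (h : Loc f) (t : ℝ) {T : ℝ} (hT : 1 ≤ T) :
    IntervalIntegrable (fun u : ℝ => (f u : ℂ) * exp (-(t * I * u))) volume 1 T := by
  rw [intervalIntegrable_iff_integrableOn_Ioc_of_le hT]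
  have h1 := ((h T hT).integrable (by norm_num)).ofReal (𝕜 := ℂ)
  refine h1.mul_bdd (c := 1) (Continuous.aestronglyMeasurable (by fun_prop)) ?_
  refine Eventually.of_forall fun u => ?_
  rw [Complex.norm_exp]
  simp

/-- the mean over `[1, T]` with the weight `1/T` -/
noncomputable def mn (f : ℝ → ℝ) (T : ℝ) : ℝ := (∫ u in (1 : ℝ)..T, f u) / T

/-- the mean of the absolute value is at least the Fourier coefficient -/
theorem abs_ge (ht : Tendsto (fun T : ℝ => (∫ u in (1 : ℝ)..T,
    (f u : ℂ) * exp (-(t * I * u))) / (T : ℂ)) atTop (𝓝 z)) {ε : ℝ} (hε : 0 < ε) :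
    ∀ᶠ T : ℝ in atTop, ‖z‖ - ε ≤ mn (fun u => |f u|) T := by
  have h1 := ht.norm
  filter_upwards [h1.eventually (lt_mem_nhds (show ‖z‖ - ε < ‖z‖ by linarith)),
    eventually_ge_atTop 1] with T h2 hT
  have hT0 : 0 < T := by linarith
  refine h2.le.trans ?_
  rw [norm_div, Complex.norm_real, Real.norm_of_nonneg hT0.le]
  unfold mn
  refine div_le_div_of_nonneg_right ?_ hT0.le
  refine (intervalIntegral.norm_integral_le_integral_norm hT).trans (le_of_eq ?_)
  refine intervalIntegral.integral_congr fun u _ => ?_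
  rw [norm_mul, Complex.norm_real, Real.norm_eq_abs, Complex.norm_exp]
  simp

theorem mn_add {f g : ℝ → ℝ} {T : ℝ} (hf : IntervalIntegrable f volume 1 T)
    (hg : IntervalIntegrable g volume 1 T) : mn (fun u => f u + g u) T = mn f T + mn g T := by
  unfold mn
  rw [intervalIntegral.integral_add hf hg, add_div]

theorem mn_sub {f g : ℝ → ℝ} {T : ℝ} (hf : IntervalIntegrable f volume 1 T)
    (hg : IntervalIntegrable g volume 1 T) : mn (fun u => f u - g u) T = mn f T - mn g T := by
  unfold mn
  rw [intervalIntegral.integral_sub hf hg, sub_div]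

theorem mn_mono {f g : ℝ → ℝ} {T : ℝ} (hT : 1 ≤ T) (hf : IntervalIntegrable f volume 1 T)
    (hg : IntervalIntegrable g volume 1 T) (h : ∀ u, 1 < u → u ≤ T → f u ≤ g u) :
    mn f T ≤ mn g T := by
  unfold mn
  refine div_le_div_of_nonneg_right ?_ (by linarith)
  rw [intervalIntegral.integral_of_le hT, intervalIntegral.integral_of_le hT]
  rw [intervalIntegrable_iff_integrableOn_Ioc_of_le hT] at hf hg
  exact setIntegral_mono_on hf hg measurableSet_Ioc fun u hu => h u hu.1 hu.2

/-- **An upper bound bounds the Fourier coefficients.** -/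
theorem coeff_le (h : Loc f) (h0 : Tendsto (mn f) atTop (𝓝 0))
    (ht : Tendsto (fun T : ℝ => (∫ u in (1 : ℝ)..T, (f u : ℂ) * exp (-(t * I * u))) / (T : ℂ))
      atTop (𝓝 z)) (ht0 : t ≠ 0) (hB : ∀ᶠ u in atTop, f u ≤ B) : ‖z‖ ≤ B := by
  -- the coefficient of `B - f`
  have hce : Tendsto (fun T : ℝ => (∫ u in (1 : ℝ)..T, (B : ℂ) * exp (-(t * I * u))) / (T : ℂ))
      atTop (𝓝 0) := by
    have hb : ∀ T : ℝ, ‖∫ u in (1 : ℝ)..T, (B : ℂ) * exp (-(t * I * u))‖ ≤ |B| * (2 / |t|) := by
      intro T
      rw [intervalIntegral.integral_const_mul, norm_mul, Complex.norm_real, Real.norm_eq_abs]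
      refine mul_le_mul_of_nonneg_left ?_ (abs_nonneg B)
      have hc : -((t : ℂ) * I) ≠ 0 := neg_ne_zero.2 (mul_ne_zero (by exact_mod_cast ht0) I_ne_zero)
      have e : (fun u : ℝ => exp (-(t * I * u))) = fun u : ℝ => exp (-((t : ℂ) * I) * u) := by
        funext u
        congr 1
        ring
      rw [e, integral_exp_mul_complex hc, norm_div]
      have h3 : ‖-((t : ℂ) * I)‖ = |t| := by
        rw [norm_neg, norm_mul, norm_I, mul_one, Complex.norm_real, Real.norm_eq_abs]
      rw [h3]
      have h4 : ∀ u : ℝ, ‖exp (-((t : ℂ) * I) * u)‖ = 1 := fun u => by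
        rw [Complex.norm_exp]
        simp
      have h5 := norm_sub_le (exp (-((t : ℂ) * I) * (T : ℝ))) (exp (-((t : ℂ) * I) * (1 : ℝ)))
      rw [h4, h4] at h5
      refine div_le_div_of_nonneg_right (h5.trans (by norm_num)) (abs_nonneg t)
    refine squeeze_zero_norm' ?_ (show Tendsto (fun T : ℝ => |B| * (2 / |t|) / T) atTop (𝓝 0) from
      tendsto_const_nhds.div_atTop tendsto_id)
    filter_upwards [eventually_gt_atTop 0] with T hT
    rw [norm_div, Complex.norm_real, Real.norm_of_nonneg hT.le]
    exact div_le_div_of_nonneg_right (hb T) hT.le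
  have h1 : Tendsto (fun T : ℝ => (∫ u in (1 : ℝ)..T, ((B - f u : ℝ) : ℂ) * exp (-(t * I * u))) /
      (T : ℂ)) atTop (𝓝 (-z)) := by
    have h2 := hce.sub ht
    rw [zero_sub] at h2
    refine h2.congr' ?_
    filter_upwards [eventually_ge_atTop 1] with T hT
    have hi : IntervalIntegrable (fun u : ℝ => (B : ℂ) * exp (-(t * I * u))) volume 1 T :=
      Continuous.intervalIntegrable (by fun_prop) _ _
    rw [← sub_div, ← intervalIntegral.integral_sub hi (h.exp t hT)]
    congr 1
    refine intervalIntegral.integral_congr fun u _ => ?_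
    push_cast
    ring
  have hloc : Loc fun u => B - f u := fun T hT => (memLp_const B).sub (h T hT)
  -- the mean of the absolute value
  have h2 : Tendsto (mn fun u => |B - f u|) atTop (𝓝 B) := by
    obtain ⟨u₀, hu₀⟩ := eventually_atTop.1 hB
    set u₁ : ℝ := max u₀ 1 with hu₁
    have hu11 : 1 ≤ u₁ := le_max_right _ _
    have h3 : Tendsto (mn fun u => B - f u) atTop (𝓝 B) := by
      have h4 : Tendsto (fun T : ℝ => B * (1 - 1 / T) - mn f T) atTop (𝓝 (B * (1 - 0) - 0)) := by
        refine Tendsto.sub (Tendsto.const_mul _ (Tendsto.sub tendsto_const_nhds ?_)) h0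
        exact tendsto_const_nhds.div_atTop tendsto_id
      rw [sub_zero, sub_zero, mul_one] at h4
      refine h4.congr' ?_
      filter_upwards [eventually_ge_atTop 1] with T hT
      have hT0 : T ≠ 0 := by linarith
      rw [mn_sub (f := fun _ => B) (by simp) (h.int hT)]
      congr 1
      unfold mn
      rw [intervalIntegral.integral_const, smul_eq_mul]
      field_simp
    have h5 : Tendsto (fun T : ℝ => (∫ u in (1 : ℝ)..u₁, (|B - f u| - (B - f u))) / T) atTop (𝓝 0) :=
      tendsto_const_nhds.div_atTop tendsto_id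
    have h6 := h3.add h5
    rw [add_zero] at h6
    refine h6.congr' ?_
    filter_upwards [eventually_ge_atTop u₁] with T hT
    have hT1 : 1 ≤ T := hu11.trans hT
    have i1 : IntervalIntegrable (fun u => B - f u) volume 1 T := hloc.int hT1
    have i2 : IntervalIntegrable (fun u => |B - f u|) volume 1 T := i1.abs
    have i3 : IntervalIntegrable (fun u => |B - f u| - (B - f u)) volume 1 T := i2.sub i1
    have e1 : ∫ u in u₁..T, (|B - f u| - (B - f u)) = 0 := by
      rw [intervalIntegral.integral_of_le hT]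
      refine setIntegral_eq_zero_of_forall_eq_zero fun u hu => ?_
      rw [abs_of_nonneg (by linarith [hu₀ u ((le_max_left _ _).trans hu.1.le)]), sub_self]
    have e2 := intervalIntegral.integral_add_adjacent_intervals (a := (1 : ℝ)) (b := u₁) (c := T)
      (f := fun u => |B - f u| - (B - f u))
      (by
        rw [intervalIntegrable_iff_integrableOn_Ioc_of_le hu11]
        rw [intervalIntegrable_iff_integrableOn_Ioc_of_le hT1] at i3
        exact i3.mono_set (Ioc_subset_Ioc_right hT))
      (by
        rw [intervalIntegrable_iff_integrableOn_Ioc_of_le hT]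
        rw [intervalIntegrable_iff_integrableOn_Ioc_of_le hT1] at i3
        exact i3.mono_set (Ioc_subset_Ioc_left hu11))
    rw [e1, add_zero] at e2
    rw [e2, intervalIntegral.integral_sub i2 i1]
    unfold mn
    rw [← add_div]
    congr 1
    ring
  refine le_of_forall_pos_le_add fun ε hε => ?_
  have h3 := abs_ge h1 (show 0 < ε / 2 by linarith)
  have h4 := h2.eventually (gt_mem_nhds (show B < B + ε / 2 by linarith))
  obtain ⟨T, h5, h6⟩ := (h3.and h4).exists
  rw [norm_neg] at h5
  have h7 : mn (fun u => |B - f u|) T < B + ε / 2 := h6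
  linarith

/-- the share of the `u ≤ T` with `f u > c` -/
noncomputable def sh (f : ℝ → ℝ) (c T : ℝ) : ℝ := mn (fun u => if c < f u then 1 else 0) T

/-- **Large positive values have a positive lower density.** -/
theorem share_ge (hf : Measurable f) (h : Loc f) (h0 : Tendsto (mn f) atTop (𝓝 0))
    (ht : Tendsto (fun T : ℝ => (∫ u in (1 : ℝ)..T, (f u : ℂ) * exp (-(t * I * u))) / (T : ℂ))
      atTop (𝓝 z)) (hV : Tendsto (mn fun u => f u ^ 2) atTop (𝓝 V)) (hV0 : 0 < V) {c : ℝ}
    (hc0 : 0 ≤ c) (hc : 2 * c < ‖z‖) {ε : ℝ} (hε : 0 < ε) :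
    ∀ᶠ T : ℝ in atTop, (‖z‖ - 2 * c) ^ 2 / (4 * V) - ε ≤ sh f c T := by
  set a : ℝ := ‖z‖ with ha
  -- the inequality for finite `T`
  have key : ∀ T : ℝ, 1 ≤ T → (mn (fun u => |f u|) T + mn f T) / 2 - c ≤
      √(mn (fun u => f u ^ 2) T * sh f c T) := by
    intro T hT
    have hT0 : 0 < T := by linarith
    have i1 := h.int hT
    have i2 : IntervalIntegrable (fun u => |f u|) volume 1 T := i1.abs
    have i3 := h.sq hT
    set g : ℝ → ℝ := fun u => if c < f u then 1 else 0 with hg
    have hgm : Measurable g := Measurable.ite (measurableSet_lt measurable_const hf)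
      measurable_const measurable_const
    have hgb : ∀ u, |g u| ≤ 1 := fun u => by
      rw [hg]
      simp only
      split_ifs <;> simp
    have hgl : MemLp g 2 (volume.restrict (Ioc 1 T)) := MemLp.of_bound hgm.aestronglyMeasurable 1
      (Eventually.of_forall fun u => hgb u)
    have hgi : IntervalIntegrable g volume 1 T := by
      rw [intervalIntegrable_iff_integrableOn_Ioc_of_le hT]
      exact hgl.integrable (by norm_num)
    have hfg : IntervalIntegrable (fun u => |f u| * g u) volume 1 T := by
      rw [intervalIntegrable_iff_integrableOn_Ioc_of_le hT]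
      exact (h T hT).abs.integrable_mul hgl
    have e1 : mn (fun u => |f u|) T + mn f T = mn (fun u => |f u| + f u) T := (mn_add i2 i1).symm
    have e2 : mn (fun u => |f u| + f u) T ≤ mn (fun u => 2 * c + 2 * (|f u| * g u)) T := by
      refine mn_mono hT (i2.add i1) (IntervalIntegrable.add (by simp) (hfg.const_mul 2)) ?_
      intro u _ _
      rw [hg]
      simp only
      split_ifs with hcu
      · rw [mul_one]
        have := le_abs_self (f u)
        linarith
      · rw [mul_zero, mul_zero, add_zero]
        have h1 : f u ≤ c := not_lt.1 hcu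
        rcases le_total 0 (f u) with h2 | h2
        · rw [abs_of_nonneg h2]
          linarith
        · rw [abs_of_nonpos h2]
          linarith
    have e3 : mn (fun u => 2 * c + 2 * (|f u| * g u)) T ≤ 2 * c + 2 * mn (fun u => |f u| * g u) T := by
      rw [mn_add (f := fun _ => 2 * c) (by simp) (hfg.const_mul 2)]
      unfold mn
      rw [intervalIntegral.integral_const, smul_eq_mul, intervalIntegral.integral_const_mul]
      have h1 : (T - 1) * (2 * c) / T ≤ 2 * c := by
        rw [div_le_iff₀ hT0]
        nlinarith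
      have h2 : (2 * ∫ u in (1 : ℝ)..T, |f u| * g u) / T =
          2 * ((∫ u in (1 : ℝ)..T, |f u| * g u) / T) := by ring
      rw [h2]
      linarith
    have e4 : mn (fun u => |f u| * g u) T ≤ √(mn (fun u => f u ^ 2) T * mn g T) := by
      -- Cauchy-Schwarz
      have hcs := integral_mul_le_Lp_mul_Lq_of_nonneg (μ := volume.restrict (Ioc 1 T))
        (f := fun u => |f u|) (g := g) Real.HolderConjugate.two_two
        (Eventually.of_forall fun u => abs_nonneg _) (Eventually.of_forall fun u => by
          simp only [Pi.zero_apply, hg]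
          split_ifs <;> norm_num) (by
          have : ENNReal.ofReal 2 = 2 := by norm_num
          rw [this]
          exact (h T hT).abs) (by
          have : ENNReal.ofReal 2 = 2 := by norm_num
          rw [this]
          exact hgl)
      have e5 : ∀ u, |f u| ^ (2 : ℝ) = f u ^ 2 := fun u => by
        rw [Real.rpow_two, sq_abs]
      have e6 : ∀ u, g u ^ (2 : ℝ) = g u := fun u => by
        rw [Real.rpow_two, hg]
        simp only
        split_ifs <;> norm_num
      simp only [e5, e6] at hcs
      unfold mn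
      rw [intervalIntegral.integral_of_le hT, intervalIntegral.integral_of_le hT,
        intervalIntegral.integral_of_le hT, ← mul_div_mul_comm, Real.sqrt_div' _ (by positivity),
        Real.sqrt_mul_self hT0.le]
      refine div_le_div_of_nonneg_right (hcs.trans (le_of_eq ?_)) hT0.le
      rw [← Real.sqrt_eq_rpow, ← Real.sqrt_eq_rpow, Real.sqrt_mul]
      exact setIntegral_nonneg measurableSet_Ioc fun u _ => sq_nonneg _
    have e7 : mn g T = sh f c T := rfl
    rw [e7] at e4
    linarith
  -- the limit
  have hlim : ∀ η > 0, ∀ᶠ T : ℝ in atTop, a / 2 - c - η ≤ √((V + η) * sh f c T) := by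
    intro η hη
    have h1 := abs_ge ht (show 0 < η by exact hη)
    have h2 := h0.eventually (lt_mem_nhds (show -η < 0 by linarith))
    have h3 := hV.eventually (gt_mem_nhds (show V < V + η by linarith))
    filter_upwards [h1, h2, h3, eventually_ge_atTop 1] with T h4 h5 h6 hT
    have h7 := key T hT
    have h8 : 0 ≤ sh f c T := by
      unfold sh mn
      refine div_nonneg ?_ (by linarith)
      rw [intervalIntegral.integral_of_le hT]
      refine setIntegral_nonneg measurableSet_Ioc fun u _ => ?_
      split_ifs <;> norm_num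
    have h9 : √(mn (fun u => f u ^ 2) T * sh f c T) ≤ √((V + η) * sh f c T) :=
      Real.sqrt_le_sqrt (mul_le_mul_of_nonneg_right h6.le h8)
    linarith
  -- choice of `η`
  have hcont : Tendsto (fun η : ℝ => (a / 2 - c - η) ^ 2 / (V + η)) (𝓝[>] 0)
      (𝓝 ((a / 2 - c - 0) ^ 2 / (V + 0))) := by
    have : ContinuousAt (fun η : ℝ => (a / 2 - c - η) ^ 2 / (V + η)) 0 := by
      refine ContinuousAt.div (by fun_prop) (by fun_prop) ?_
      rw [add_zero]
      exact hV0.ne'
    exact this.tendsto.mono_left nhdsWithin_le_nhds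
  rw [sub_zero, add_zero] at hcont
  have e8 : (a / 2 - c) ^ 2 / V = (a - 2 * c) ^ 2 / (4 * V) := by
    field_simp
    ring
  rw [e8] at hcont
  have h1 := hcont.eventually (lt_mem_nhds (show (a - 2 * c) ^ 2 / (4 * V) - ε <
    (a - 2 * c) ^ 2 / (4 * V) by linarith))
  have h2 : ∀ᶠ η : ℝ in 𝓝[>] 0, η < a / 2 - c :=
    nhdsWithin_le_nhds (gt_mem_nhds (show (0 : ℝ) < a / 2 - c by linarith))
  obtain ⟨η, ⟨h3, h4⟩, h5⟩ := ((h1.and h2).and self_mem_nhdsWithin).exists
  have hη : 0 < η := h5
  filter_upwards [hlim η hη, eventually_ge_atTop 1] with T h6 hT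
  have h8 : 0 ≤ sh f c T := by
    unfold sh mn
    refine div_nonneg ?_ (by linarith)
    rw [intervalIntegral.integral_of_le hT]
    refine setIntegral_nonneg measurableSet_Ioc fun u _ => ?_
    split_ifs <;> norm_num
  have h9 : (a / 2 - c - η) ^ 2 ≤ (V + η) * sh f c T := by
    have h10 := pow_le_pow_left₀ (by linarith) h6 2
    rwa [Real.sq_sqrt (by positivity)] at h10
  have h11 : (a / 2 - c - η) ^ 2 / (V + η) ≤ sh f c T := by
    rw [div_le_iff₀ (by linarith)]
    linarith
  linarith

end Pool.Agent.Q5.OM
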