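import Pool.Agent.Q5.BP.Thm
import Pool.Agent.TH942.OS.Up
import Pool.Agent.Q5.OM.Mean

/-!
# One-sided bounds and zeros
-/

set_option autoImplicit false

open MeasureTheory Filter Topology Set Complex
open Pool.Agent.TH942.LS (Dat S P Wt Cont)
open Pool.Agent.TH942.SL (DD dd_deriv)
open Pool.Agent.TH942.OS (exp_L re_analytic upper)
open Pool.Agent.TH270.MS (Sh sh_le sh_meas sh_zero sh_lap Cn ferr_meas ferr_loc)
open Pool.Agent.W263.BSD (LInt lap lapC lapC_ofReal lapC_differentiableAt)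

namespace Pool.Agent.Q5.OM

variable {lam c : ℕ → ℝ} {δ σ : ℝ} {G₀ g : ℂ → ℂ} {k p κ : ℕ} {η C : ℝ}

/-! ### upper bounds -/

/-- the sharp weight -/
noncomputable def ws (u : ℝ) : ℝ := if u ≤ 1 then 1 else 0

theorem ws_wt : Wt ws 1 1 where
  meas := Measurable.ite measurableSet_Iic measurable_const measurable_const
  bd := fun u => by
    unfold ws
    split_ifs <;> simp
  b0 := one_pos
  supp := fun u hu => if_neg (not_le.2 hu)

theorem S_ws {T : ℝ} (hT : 0 < T) : S lam c ws T = Sh lam c T := by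
  unfold S Sh ws
  refine tsum_congr fun n => ?_
  simp only [div_le_one hT]
  split_ifs <;> simp

theorem cont_cn (E : Cn lam c δ σ G₀ g k p κ η C) : Cont lam c σ 0 G₀ (fun s => k / s) where
  θ0 := le_rfl
  Ψd := fun s hs => E.hG s (by linarith [E.hη])
  Kd := fun s hs => by
    have hs0 : s ≠ 0 := fun h => by
      rw [h, Complex.zero_re] at hs
      exact lt_irrefl _ hs
    exact (differentiableAt_const _).div differentiableAt_id hs0
  ne := fun s hs => by
    have hs1 : 0 < s.re := E.D.σ0.trans hs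
    have hs0 : s ≠ 0 := fun h => by
      rw [h, Complex.zero_re] at hs1
      exact lt_irrefl _ hs1
    rw [← E.hexp s hs]
    exact mul_ne_zero (pow_ne_zero _ hs0) (Complex.exp_ne_zero _)
  eq := fun s hs => by
    have hs1 : 0 < s.re := E.D.σ0.trans hs
    have hs0 : s ≠ 0 := fun h => by
      rw [h, Complex.zero_re] at hs1
      exact lt_irrefl _ hs1
    have ho : IsOpen {s : ℂ | σ < s.re} := isOpen_lt continuous_const Complex.continuous_re
    have hge : G₀ =ᶠ[𝓝 s] fun w => w ^ k * exp (-DD lam c w) := by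
      filter_upwards [ho.mem_nhds hs] with w hw
      exact (E.hexp w hw).symm
    have d1 : HasDerivAt (fun w : ℂ => w ^ k) (k * s ^ (k - 1)) s := by
      simpa using (hasDerivAt_id s).fun_pow k
    have d2 : HasDerivAt (fun w => exp (-DD lam c w)) (exp (-DD lam c s) * (- -P lam c s)) s :=
      (dd_deriv E.D hs).neg.cexp
    have d3 : deriv (fun w => w ^ k * exp (-DD lam c w)) s = _ := (d1.mul d2).deriv
    rw [hge.deriv_eq, hge.eq_of_nhds, d3]
    have he := Complex.exp_ne_zero (-DD lam c s)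
    rcases Nat.eq_zero_or_pos k with hk | hk
    · rw [hk]
      simp only [pow_zero, Nat.cast_zero, zero_mul, zero_add, one_mul, zero_div, sub_zero]
      field_simp
    · obtain ⟨j, rfl⟩ : ∃ j, k = j + 1 := ⟨k - 1, by omega⟩
      simp only [Nat.add_sub_cancel]
      push_cast
      field_simp
      ring

/-- **Upper bounds exclude zeros.** -/
theorem upper_zf (E : Cn lam c δ σ G₀ g k p κ η C)
    (hU : ∀ α : ℝ, 0 < α → ∃ C' T₀ : ℝ, ∀ T, T₀ ≤ T → Sh lam c T ≤ C' * Real.exp (α * T)) :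
    ∀ s : ℂ, 0 < s.re → G₀ s ≠ 0 := by
  refine (upper E.D ws_wt (fun u => by unfold ws; split_ifs <;> norm_num) (cont_cn E) ?_ ?_).2
  · intro κ hκ h
    have h1 : ∀ᵐ x : ℝ, x ∉ Ioo κ 1 := by
      filter_upwards [h] with x hx hxm
      have := hx hxm
      unfold ws at this
      rw [if_pos hxm.2.le] at this
      exact one_ne_zero this
    have h2 : volume (Ioo κ 1) = 0 := by
      have := measure_eq_zero_iff_ae_notMem.2 h1
      exact this
    rw [Real.volume_Ioo, ENNReal.ofReal_eq_zero] at h2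
    linarith
  · intro α hα
    rw [mul_zero] at hα
    obtain ⟨C', T₀, h⟩ := hU α hα
    refine ⟨C', max T₀ 1, fun T hT => ?_⟩
    have hT1 : 1 ≤ T := (le_max_right _ _).trans hT
    rw [S_ws (by linarith)]
    exact h T ((le_max_left _ _).trans hT)

theorem log_le_exp {α u : ℝ} (hα : 0 < α) (hu : 1 ≤ u) : Real.log u ≤ 1 / α * Real.exp (α * u) := by
  have h1 : Real.log u ≤ u := (Real.log_le_sub_one_of_pos (by linarith)).trans (by linarith)
  have h2 : α * u ≤ Real.exp (α * u) := by linarith [Real.add_one_le_exp (α * u)]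
  have h3 : u ≤ 1 / α * Real.exp (α * u) := by
    rw [one_div, ← div_eq_inv_mul, le_div_iff₀ hα]
    linarith
  linarith

/-- a bound for the error term bounds the sum -/
theorem sh_of_upper {r q B : ℝ}
    (h : ∀ᶠ u : ℝ in atTop, u * (Sh lam c u - r * Real.log u - q) ≤ B) (α : ℝ) (hα : 0 < α) :
    ∃ C' T₀ : ℝ, ∀ T, T₀ ≤ T → Sh lam c T ≤ C' * Real.exp (α * T) := by
  obtain ⟨u₀, hu₀⟩ := eventually_atTop.1 h
  refine ⟨|r| * (1 / α) + |q| + |B|, max u₀ 1, fun T hT => ?_⟩
  have hT1 : 1 ≤ T := (le_max_right _ _).trans hT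
  have hT0 : 0 < T := by linarith
  have h1 := hu₀ T ((le_max_left _ _).trans hT)
  have h2 : Sh lam c T - r * Real.log T - q ≤ |B| := by
    by_contra hcon
    have h3 : |B| < Sh lam c T - r * Real.log T - q := not_le.1 hcon
    have h4 : |B| * 1 ≤ |B| * T := mul_le_mul_of_nonneg_left hT1 (abs_nonneg B)
    have h5 : T * |B| < T * (Sh lam c T - r * Real.log T - q) := mul_lt_mul_of_pos_left h3 hT0
    have := le_abs_self B
    linarith
  have h3 : 1 ≤ Real.exp (α * T) := Real.one_le_exp (by positivity)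
  have h4 : r * Real.log T ≤ |r| * (1 / α * Real.exp (α * T)) :=
    (mul_le_mul_of_nonneg_right (le_abs_self r) (Real.log_nonneg hT1)).trans
      (mul_le_mul_of_nonneg_left (log_le_exp hα hT1) (abs_nonneg r))
  have h5 : |q| + |B| ≤ (|q| + |B|) * Real.exp (α * T) := le_mul_of_one_le_right (by positivity) h3
  have h6 := le_abs_self q
  calc Sh lam c T ≤ r * Real.log T + q + |B| := by linarith
    _ ≤ |r| * (1 / α * Real.exp (α * T)) + (|q| + |B|) * Real.exp (α * T) := by linarith
    _ = _ := by ring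

theorem sh_of_lower {r q B : ℝ}
    (h : ∀ᶠ u : ℝ in atTop, -B ≤ u * (Sh lam c u - r * Real.log u - q)) (α : ℝ) (hα : 0 < α) :
    ∃ C' T₀ : ℝ, ∀ T, T₀ ≤ T → -(C' * Real.exp (α * T)) ≤ Sh lam c T := by
  obtain ⟨u₀, hu₀⟩ := eventually_atTop.1 h
  refine ⟨|r| * (1 / α) + |q| + |B|, max u₀ 1, fun T hT => ?_⟩
  have hT1 : 1 ≤ T := (le_max_right _ _).trans hT
  have hT0 : 0 < T := by linarith
  have h1 := hu₀ T ((le_max_left _ _).trans hT)
  have h2 : -|B| ≤ Sh lam c T - r * Real.log T - q := by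
    by_contra hcon
    have h3 : Sh lam c T - r * Real.log T - q < -|B| := not_le.1 hcon
    have h4 : |B| * 1 ≤ |B| * T := mul_le_mul_of_nonneg_left hT1 (abs_nonneg B)
    have h5 : T * (Sh lam c T - r * Real.log T - q) < T * -|B| := mul_lt_mul_of_pos_left h3 hT0
    have := le_abs_self B
    linarith
  have h3 : 1 ≤ Real.exp (α * T) := Real.one_le_exp (by positivity)
  have h4 : -(r * Real.log T) ≤ |r| * (1 / α * Real.exp (α * T)) := by
    refine le_trans ?_ (mul_le_mul_of_nonneg_left (log_le_exp hα hT1) (abs_nonneg r))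
    rw [← neg_mul]
    exact mul_le_mul_of_nonneg_right (neg_le_abs r) (Real.log_nonneg hT1)
  have h5 : |q| + |B| ≤ (|q| + |B|) * Real.exp (α * T) := le_mul_of_one_le_right (by positivity) h3
  have h6 := neg_abs_le q
  have h7 : (|r| * (1 / α) + |q| + |B|) * Real.exp (α * T) =
      |r| * (1 / α * Real.exp (α * T)) + (|q| + |B|) * Real.exp (α * T) := by ring
  linarith

/-! ### lower bounds -/

theorem dd_real (x : ℝ) : (DD lam c x).im = 0 := by
  have h : DD lam c (x : ℂ) = ((∑' n, c n * Real.exp (-(x * lam n)) : ℝ) : ℂ) := by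
    unfold DD
    rw [Complex.ofReal_tsum]
    refine tsum_congr fun n => ?_
    push_cast
    rfl
  rw [h, Complex.ofReal_im]

theorem sh_LInt (D : Dat lam c δ σ) {w : ℝ} (hw : σ < w) : LInt (Sh lam c) w := by
  set S₀ : ℝ := ∑' n, |c n| * Real.exp (-(σ * lam n)) with hS₀
  have h1 : IntegrableOn (fun u : ℝ => S₀ * Real.exp (-(w - σ) * u)) (Ioi 0) :=
    (integrableOn_exp_mul_Ioi (a := -(w - σ)) (by linarith) 0).const_mul S₀
  refine h1.mono' (((sh_meas D).mul (by fun_prop)).aestronglyMeasurable)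
    (Eventually.of_forall fun u => ?_)
  rw [norm_mul, Real.norm_eq_abs, Real.norm_of_nonneg (Real.exp_pos _).le]
  calc |Sh lam c u| * Real.exp (-(w * u)) ≤ (Real.exp (σ * u) * S₀) * Real.exp (-(w * u)) :=
        mul_le_mul_of_nonneg_right (sh_le D u) (Real.exp_pos _).le
    _ = S₀ * (Real.exp (σ * u) * Real.exp (-(w * u))) := by ring
    _ = _ := by
      rw [← Real.exp_add]
      congr 2
      ring

theorem sh_lapC (D : Dat lam c δ σ) {s : ℂ} (hs : σ < s.re) :
    lapC (Sh lam c) s = DD lam c s / s := by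
  rw [← sh_lap D hs]
  unfold Pool.Agent.W263.BSD.lapC
  refine setIntegral_eq_integral_of_forall_compl_eq_zero fun u hu => ?_
  have hu0 : u ≤ 0 := not_lt.1 hu
  rw [sh_zero D (by linarith [D.δ0])]
  simp

theorem im_zero (E : Cn lam c δ σ G₀ g k p κ η C) {x : ℝ} (hx : 0 < x) : (G₀ x).im = 0 := by
  have hη := E.hη
  have ho : IsOpen {s : ℂ | -η < s.re} := isOpen_lt continuous_const Complex.continuous_re
  have hGa : ∀ s : ℂ, -η < s.re → AnalyticAt ℂ G₀ s := fun s hs => by
    have h : DifferentiableOn ℂ G₀ {s : ℂ | -η < s.re} :=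
      fun z hz => (E.hG z hz).differentiableWithinAt
    exact h.analyticAt (ho.mem_nhds hs)
  have han : AnalyticOnNhd ℝ (fun x : ℝ => (G₀ x).im) (Ioi 0) := by
    intro y hy
    have hy' : -η < ((y : ℝ) : ℂ).re := by
      have : (0 : ℝ) < y := hy
      rw [Complex.ofReal_re]
      linarith
    have h1 : AnalyticAt ℝ G₀ (y : ℂ) := (hGa _ hy').restrictScalars
    have h2 : AnalyticAt ℝ (fun x : ℝ => (x : ℂ)) y := Complex.ofRealCLM.analyticAt y
    have h3 : AnalyticAt ℝ (fun z : ℂ => z.im) (G₀ y) := Complex.imCLM.analyticAt _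
    exact AnalyticAt.fun_comp h3 (AnalyticAt.fun_comp h1 h2)
  have hσ := E.D.σ0
  have h1 := han.eqOn_zero_of_preconnected_of_eventuallyEq_zero isPreconnected_Ioi
    (z₀ := σ + 1) (mem_Ioi.2 (by linarith)) (by
      filter_upwards [Ioi_mem_nhds (show σ < σ + 1 by linarith)] with y hy
      have hy' : σ < y := hy
      have h2 := E.hexp (y : ℂ) (by rwa [Complex.ofReal_re])
      have h3 : DD lam c (y : ℂ) = ((DD lam c y).re : ℂ) := by
        apply Complex.ext
        · simp
        · simp [dd_real y]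
      rw [← h2, h3, ← Complex.ofReal_neg, ← Complex.ofReal_exp, ← Complex.ofReal_pow,
        ← Complex.ofReal_mul, Complex.ofReal_im]
      rfl)
  exact h1 (mem_Ioi.2 hx)

theorem re_pos (E : Cn lam c δ σ G₀ g k p κ η C) (hreal : ∀ x : ℝ, 0 < x → G₀ x ≠ 0) {x : ℝ}
    (hx : 0 < x) : 0 < (G₀ x).re := by
  have hη := E.hη
  have hσ := E.D.σ0
  have hne : ∀ y : ℝ, 0 < y → (G₀ y).re ≠ 0 := fun y hy h =>
    hreal y hy (Complex.ext h (im_zero E hy))
  have hc : ContinuousOn (fun y : ℝ => (G₀ y).re) (Ioi 0) := by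
    intro y hy
    have hy' : (0 : ℝ) < y := hy
    have h1 : ContinuousAt G₀ (y : ℂ) := (E.hG _ (by
      rw [Complex.ofReal_re]
      linarith)).continuousAt
    have h2 : ContinuousAt (fun y : ℝ => G₀ (y : ℂ)) y :=
      ContinuousAt.comp (f := fun y : ℝ => (y : ℂ)) h1 Complex.continuous_ofReal.continuousAt
    exact (Complex.continuous_re.continuousAt.comp h2).continuousWithinAt
  have hbig : 0 < (G₀ ((σ + 1 : ℝ) : ℂ)).re := by
    have h2 := E.hexp ((σ + 1 : ℝ) : ℂ) (by
      rw [Complex.ofReal_re]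
      linarith)
    have h3 : DD lam c ((σ + 1 : ℝ) : ℂ) = ((DD lam c ((σ + 1 : ℝ) : ℂ)).re : ℂ) := by
      apply Complex.ext
      · simp
      · rw [dd_real]
        simp
    rw [← h2, h3, ← Complex.ofReal_neg, ← Complex.ofReal_exp, ← Complex.ofReal_pow,
      ← Complex.ofReal_mul, Complex.ofReal_re]
    positivity
  by_contra hneg
  have h1 : (G₀ x).re ≤ 0 := not_lt.1 hneg
  have h2 := isPreconnected_Ioi.intermediate_value (a := x) (b := σ + 1) (mem_Ioi.2 hx)
    (mem_Ioi.2 (by linarith)) hc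
  obtain ⟨y, hy, hy0⟩ := h2 ⟨h1, hbig.le⟩
  exact hne y hy hy0

/-- **Lower bounds exclude zeros, if there are no real zeros.** -/
theorem lower_zf (E : Cn lam c δ σ G₀ g k p κ η C) (hreal : ∀ x : ℝ, 0 < x → G₀ x ≠ 0)
    (hL : ∀ α : ℝ, 0 < α → ∃ C' T₀ : ℝ, ∀ T, T₀ ≤ T → -(C' * Real.exp (α * T)) ≤ Sh lam c T) :
    ∀ s : ℂ, 0 < s.re → G₀ s ≠ 0 := by
  intro s₁ hs₁
  have hη := E.hη
  have D := E.D
  have hσ := D.σ0
  set α : ℝ := s₁.re / 2 with hα
  have hα0 : 0 < α := by rw [hα]; linarith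
  obtain ⟨C₁, T₀, h1⟩ := hL α hα0
  -- the bound on the half line
  obtain ⟨A, hA0, hA⟩ : ∃ A : ℝ, 0 ≤ A ∧ ∀ T, 0 < T → 0 ≤ Sh lam c T + A * Real.exp (α * T) := by
    set S₀ : ℝ := ∑' n, |c n| * Real.exp (-(σ * lam n)) with hS₀
    have hs0 : 0 ≤ S₀ := tsum_nonneg fun n => by positivity
    refine ⟨max (Real.exp (σ * |T₀|) * S₀) |C₁|, by positivity, fun T hT => ?_⟩
    rcases le_total T₀ T with h | h
    · have h2 := h1 T h
      have h3 : C₁ * Real.exp (α * T) ≤
          max (Real.exp (σ * |T₀|) * S₀) |C₁| * Real.exp (α * T) :=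
        mul_le_mul_of_nonneg_right ((le_abs_self C₁).trans (le_max_right _ _)) (Real.exp_pos _).le
      linarith
    · have h2 := (abs_le.1 (sh_le D T)).1
      have h3 : Real.exp (σ * T) * S₀ ≤ Real.exp (σ * |T₀|) * S₀ :=
        mul_le_mul_of_nonneg_right (Real.exp_le_exp.2
          (mul_le_mul_of_nonneg_left (h.trans (le_abs_self _)) hσ.le)) hs0
      have h4 : 1 ≤ Real.exp (α * T) := Real.one_le_exp (by positivity)
      have h5 : Real.exp (σ * |T₀|) * S₀ ≤
          max (Real.exp (σ * |T₀|) * S₀) |C₁| * Real.exp (α * T) :=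
        (le_max_left _ _).trans (le_mul_of_one_le_right (by positivity) h4)
      linarith
  set f : ℝ → ℝ := fun u => Sh lam c u + A * Real.exp (α * u) with hf
  have hfm : Measurable f := (sh_meas D).add (by fun_prop)
  have hfi : ∀ w : ℝ, max σ α < w → LInt f w := fun w hw =>
    (sh_LInt D ((le_max_left _ _).trans_lt hw)).add
      ((exp_L ((le_max_right _ _).trans_lt hw)).1.const_mul A)
  have hfl : ∀ w : ℝ, max σ α < w → lap f w = lap (Sh lam c) w + A * (1 / (w - α)) := by
    intro w hw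
    rw [hf, Pool.Agent.W263.BSD.lap_add (sh_LInt D ((le_max_left _ _).trans_lt hw))
      ((exp_L ((le_max_right _ _).trans_lt hw)).1.const_mul A),
      Pool.Agent.W263.BSD.lap_const_mul, (exp_L ((le_max_right _ _).trans_lt hw)).2]
  -- the analytic function
  have ho : IsOpen {s : ℂ | -η < s.re} := isOpen_lt continuous_const Complex.continuous_re
  have hGa : ∀ s : ℂ, -η < s.re → AnalyticAt ℂ G₀ s := fun s hs => by
    have h : DifferentiableOn ℂ G₀ {s : ℂ | -η < s.re} :=
      fun z hz => (E.hG z hz).differentiableWithinAt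
    exact h.analyticAt (ho.mem_nhds hs)
  set Γ : ℂ → ℂ := fun z => -(Complex.log (G₀ z) - k * Complex.log z) / z + A * (1 / (z - α)) with hΓ
  have hΓa : ∀ w : ℝ, α < w → AnalyticAt ℝ (fun x : ℝ => (Γ x).re) w := by
    intro w hw
    have hw0 : 0 < w := hα0.trans hw
    have hwc : (w : ℂ) ≠ 0 := by exact_mod_cast hw0.ne'
    have hwα : (w : ℂ) - α ≠ 0 := by
      rw [← Complex.ofReal_sub]
      exact_mod_cast (sub_pos.2 hw).ne'
    refine re_analytic ?_
    have a1 : AnalyticAt ℂ G₀ (w : ℂ) := hGa _ (by rw [Complex.ofReal_re]; linarith)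
    have a2 : AnalyticAt ℂ (fun z => Complex.log (G₀ z)) (w : ℂ) :=
      a1.clog (Or.inl (re_pos E hreal hw0))
    have a3 : AnalyticAt ℂ (fun z => Complex.log z) (w : ℂ) :=
      analyticAt_id.clog (Or.inl (by simpa using hw0))
    exact (((a2.sub (analyticAt_const.mul a3)).neg).div analyticAt_id hwc).add
      (analyticAt_const.mul (analyticAt_const.div (analyticAt_id.sub analyticAt_const) hwα))
  have heq : ∀ w : ℝ, max σ α < w → α < w → lap f w = (Γ w).re := by
    intro w hw hwα
    have hwσ : σ < w := (le_max_left _ _).trans_lt hw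
    have hw0 : 0 < w := hα0.trans hwα
    rw [hfl w hw]
    have e1 : (lap (Sh lam c) w : ℂ) = DD lam c w / w := by
      rw [← lapC_ofReal]
      exact sh_lapC D (by rwa [Complex.ofReal_re])
    have e2 : DD lam c (w : ℂ) = ((DD lam c w).re : ℂ) := by
      apply Complex.ext
      · simp
      · simp [dd_real w]
    have e3 : G₀ (w : ℂ) = ((w ^ k * Real.exp (-(DD lam c w).re) : ℝ) : ℂ) := by
      rw [← E.hexp (w : ℂ) (by rwa [Complex.ofReal_re])]
      push_cast
      rw [← e2]
    have e4 : Complex.log (G₀ w) - k * Complex.log w = -(DD lam c w) := by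
      rw [e3, ← Complex.ofReal_log (by positivity), ← Complex.ofReal_log hw0.le,
        Real.log_mul (by positivity) (Real.exp_pos _).ne', Real.log_pow, Real.log_exp]
      conv_rhs => rw [e2]
      push_cast
      ring
    have e5 : Γ w = ((lap (Sh lam c) w + A * (1 / (w - α)) : ℝ) : ℂ) := by
      rw [hΓ]
      simp only
      rw [e4, neg_neg, Complex.ofReal_add, e1]
      push_cast
      rfl
    rw [e5, Complex.ofReal_re]
  obtain ⟨h3, -⟩ := Pool.Agent.TH988.RB.landau_lap hfm hA hfi hΓa heq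
  -- the Laplace transform of the sum
  have h4 : ∀ w : ℝ, α < w → LInt (Sh lam c) w := by
    intro w hw
    refine ((h3 w hw).sub ((exp_L hw).1.const_mul A)).congr_fun (fun u _ => ?_) measurableSet_Ioi
    simp only [hf]
    ring
  have hU : IsOpen {z : ℂ | α < z.re} := isOpen_lt continuous_const Complex.continuous_re
  have hUc : IsPreconnected {z : ℂ | α < z.re} := (convex_halfSpace_re_gt α).isPreconnected
  have a1 : AnalyticOnNhd ℂ (fun z => z ^ k * exp (-(z * lapC (Sh lam c) z))) {z : ℂ | α < z.re} := by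
    refine DifferentiableOn.analyticOnNhd (fun z hz => ?_) hU
    have hz' : α < z.re := hz
    have := lapC_differentiableAt (sh_meas D) h4 hz'
    exact ((differentiableAt_id.pow k).mul
      ((differentiableAt_id.mul this).neg.cexp)).differentiableWithinAt
  have a2 : AnalyticOnNhd ℂ G₀ {z : ℂ | α < z.re} := fun z hz => hGa z (by
    have hz' : α < z.re := hz
    linarith)
  have hz0 : ((max σ α + 1 : ℝ) : ℂ) ∈ {z : ℂ | α < z.re} := by
    show α < ((max σ α + 1 : ℝ) : ℂ).re
    rw [Complex.ofReal_re]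
    linarith [le_max_right σ α]
  have h5 := a1.eqOn_of_preconnected_of_eventuallyEq a2 hUc hz0 (by
    have hV : IsOpen {z : ℂ | σ < z.re} := isOpen_lt continuous_const Complex.continuous_re
    have hzV : ((max σ α + 1 : ℝ) : ℂ) ∈ {z : ℂ | σ < z.re} := by
      show σ < ((max σ α + 1 : ℝ) : ℂ).re
      rw [Complex.ofReal_re]
      linarith [le_max_left σ α]
    filter_upwards [hV.mem_nhds hzV] with z hz
    have hz' : σ < z.re := hz
    have hz0 : z ≠ 0 := fun h => by
      rw [h, Complex.zero_re] at hz'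
      linarith
    rw [sh_lapC D hz', mul_div_cancel₀ _ hz0]
    exact E.hexp z hz')
  have h6 : s₁ ∈ {z : ℂ | α < z.re} := by
    show α < s₁.re
    rw [hα]
    linarith
  have h7 := h5 h6
  rw [← h7]
  have hs0 : s₁ ≠ 0 := fun h => by
    rw [h, Complex.zero_re] at hs₁
    exact lt_irrefl _ hs₁
  exact mul_ne_zero (pow_ne_zero _ hs0) (Complex.exp_ne_zero _)

end Pool.Agent.Q5.OM
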